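import Mathlib

set_option autoImplicit false
set_option linter.unusedSectionVars false

/-!
# Decomposition of a finite set into pieces of small radius with few fibres

A finite set `A` is given together with finitely many maps `f p`, `p ∈ T`. Two elements are adjacent
if they have the same image under one of the maps. `A` is divided into balls of radius at most `t`
such that the total number of fibres met by the pieces is at most `M ^ (1 / t)` times the number
of fibres of `A`.
-/

namespace Pool.Agent.K3h55.OP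

open Finset

variable {α β τ : Type} [DecidableEq α] [DecidableEq β]

/-- the total number of the fibres of the maps `f p`, `p ∈ T`, which meet `A` -/
def touch (T : Finset τ) (f : τ → α → β) (A : Finset α) : ℕ := ∑ p ∈ T, (A.image (f p)).card

open Classical in
/-- the ball of radius `j` around `a` -/
noncomputable def ball (T : Finset τ) (f : τ → α → β) (A : Finset α) (a : α) : ℕ → Finset α
  | 0 => {a}
  | j + 1 => A.filter (fun x => ∃ y ∈ ball T f A a j, ∃ p ∈ T, f p x = f p y)

lemma mem_ball_succ {T : Finset τ} {f : τ → α → β} {A : Finset α} {a x : α} {j : ℕ} :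
    x ∈ ball T f A a (j + 1) ↔ x ∈ A ∧ ∃ y ∈ ball T f A a j, ∃ p ∈ T, f p x = f p y := by
  rw [ball, Finset.mem_filter]

lemma ball_sub {T : Finset τ} {f : τ → α → β} {A : Finset α} {a : α} (ha : a ∈ A) (j : ℕ) :
    ball T f A a j ⊆ A := by
  cases j with
  | zero => intro x hx; rw [ball, Finset.mem_singleton] at hx; rw [hx]; exact ha
  | succ j => intro x hx; exact (mem_ball_succ.1 hx).1

lemma ball_mono {T : Finset τ} {f : τ → α → β} {A : Finset α} {a : α} (ha : a ∈ A)
    (hT : T.Nonempty) (j : ℕ) : ball T f A a j ⊆ ball T f A a (j + 1) := by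
  intro x hx
  obtain ⟨p, hp⟩ := hT
  exact mem_ball_succ.2 ⟨ball_sub ha j hx, x, hx, p, hp, rfl⟩

lemma ball_le {T : Finset τ} {f : τ → α → β} {A : Finset α} {a : α} (ha : a ∈ A)
    (hT : T.Nonempty) {i j : ℕ} (h : i ≤ j) : ball T f A a i ⊆ ball T f A a j := by
  induction h with
  | refl => exact Finset.Subset.refl _
  | step _ ih => exact ih.trans (ball_mono ha hT _)

lemma touch_mono {T : Finset τ} {f : τ → α → β} {A B : Finset α} (h : A ⊆ B) :
    touch T f A ≤ touch T f B :=
  Finset.sum_le_sum fun _ _ => Finset.card_le_card (Finset.image_subset_image h)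

lemma touch_remove {T : Finset τ} {f : τ → α → β} {A : Finset α} {a : α} (ha : a ∈ A) (j : ℕ) :
    touch T f (A \ ball T f A a (j + 1)) + touch T f (ball T f A a j) ≤ touch T f A := by
  unfold touch
  rw [← Finset.sum_add_distrib]
  refine Finset.sum_le_sum fun p hp => ?_
  rw [← Finset.card_union_of_disjoint]
  · refine Finset.card_le_card (Finset.union_subset ?_ ?_)
    · exact Finset.image_subset_image Finset.sdiff_subset
    · exact Finset.image_subset_image (ball_sub ha j)
  · rw [Finset.disjoint_left]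
    intro v hv hv'
    obtain ⟨x, hx, rfl⟩ := Finset.mem_image.1 hv
    obtain ⟨y, hy, hxy⟩ := Finset.mem_image.1 hv'
    rw [Finset.mem_sdiff] at hx
    exact hx.2 (mem_ball_succ.2 ⟨hx.1, y, hy, p, hp, hxy.symm⟩)

lemma one_le_touch {T : Finset τ} {f : τ → α → β} {A : Finset α} (hT : T.Nonempty)
    (hA : A.Nonempty) : 1 ≤ touch T f A := by
  obtain ⟨p, hp⟩ := hT
  have h1 : 1 ≤ (A.image (f p)).card := Finset.card_pos.2 (hA.image _)
  exact h1.trans (Finset.single_le_sum (f := fun p => (A.image (f p)).card)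
    (fun _ _ => Nat.zero_le _) hp)

lemma ball_nonempty {T : Finset τ} {f : τ → α → β} {A : Finset α} {a : α} (ha : a ∈ A)
    (hT : T.Nonempty) (j : ℕ) : (ball T f A a j).Nonempty := by
  refine ⟨a, ball_le ha hT (Nat.zero_le j) ?_⟩
  rw [ball, Finset.mem_singleton]

lemma grow {T : Finset τ} {f : τ → α → β} {A : Finset α} {a : α} (ha : a ∈ A) (hT : T.Nonempty)
    (t : ℕ) (ht : 1 ≤ t) (M : ℝ) (hM : (touch T f A : ℝ) ≤ M) :
    ∃ j < t, (touch T f (ball T f A a (j + 1)) : ℝ) ≤
      M ^ (1 / (t : ℝ)) * touch T f (ball T f A a j) := by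
  by_contra hcon
  push Not at hcon
  have hM1 : (1 : ℝ) ≤ M := by
    have h1 : (1 : ℝ) ≤ (touch T f A : ℝ) := by exact_mod_cast one_le_touch hT ⟨a, ha⟩
    linarith
  have hq : (0 : ℝ) < M ^ (1 / (t : ℝ)) := Real.rpow_pos_of_pos (by linarith) _
  have h2 : ∀ j, 1 ≤ j → j ≤ t →
      (M ^ (1 / (t : ℝ))) ^ j < (touch T f (ball T f A a j) : ℝ) := by
    intro j hj
    induction j, hj using Nat.le_induction with
    | base =>
      intro _
      have h3 := hcon 0 (by omega)
      have h4 : (1 : ℝ) ≤ (touch T f (ball T f A a 0) : ℝ) := by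
        exact_mod_cast one_le_touch hT (ball_nonempty ha hT 0)
      rw [pow_one]
      nlinarith
    | succ j hj ih =>
      intro hjt
      have h3 := hcon j (by omega)
      have h4 := ih (by omega)
      rw [pow_succ]
      calc (M ^ (1 / (t : ℝ))) ^ j * M ^ (1 / (t : ℝ))
          = M ^ (1 / (t : ℝ)) * (M ^ (1 / (t : ℝ))) ^ j := mul_comm _ _
        _ < M ^ (1 / (t : ℝ)) * (touch T f (ball T f A a j) : ℝ) :=
            mul_lt_mul_of_pos_left h4 hq
        _ < _ := h3
  have h3 := h2 t ht le_rfl
  have h4 : (M ^ (1 / (t : ℝ))) ^ t = M := by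
    rw [← Real.rpow_natCast, ← Real.rpow_mul (by linarith), one_div,
      inv_mul_cancel₀ (by positivity), Real.rpow_one]
  rw [h4] at h3
  have h5 : (touch T f (ball T f A a t) : ℝ) ≤ (touch T f A : ℝ) := by
    exact_mod_cast touch_mono (ball_sub ha t)
  linarith

/-- **Decomposition into pieces of small radius.** -/
theorem decomp {T : Finset τ} {f : τ → α → β} (hT : T.Nonempty) (t : ℕ) (ht : 1 ≤ t)
    (M D : ℝ) (hD : 0 ≤ D) (A : Finset α) (hM : (touch T f A : ℝ) ≤ M)
    (hpiece : ∀ A' ⊆ A, ∀ a ∈ A', ∀ j ≤ t,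
      ((ball T f A' a j).card : ℝ) ≤ D * touch T f (ball T f A' a j)) :
    (A.card : ℝ) ≤ D * (M ^ (1 / (t : ℝ)) * touch T f A) := by
  induction h : A.card using Nat.strong_induction_on generalizing A with
  | _ n ih =>
    rcases A.eq_empty_or_nonempty with rfl | hne
    · subst h
      rw [Finset.card_empty, Nat.cast_zero]
      have h1 : (0 : ℝ) ≤ M := le_trans (Nat.cast_nonneg _) hM
      positivity
    obtain ⟨a, ha⟩ := hne
    obtain ⟨j, hj, hgr⟩ := grow ha hT t ht M hM
    have hM1 : (1 : ℝ) ≤ M := by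
      have h1 : (1 : ℝ) ≤ (touch T f A : ℝ) := by exact_mod_cast one_le_touch hT ⟨a, ha⟩
      linarith
    have hq : (0 : ℝ) < M ^ (1 / (t : ℝ)) := Real.rpow_pos_of_pos (by linarith) _
    obtain ⟨P, hP⟩ : ∃ P, P = ball T f A a (j + 1) := ⟨_, rfl⟩
    have hPA : P ⊆ A := hP ▸ ball_sub ha _
    have hPne : P.Nonempty := hP ▸ ball_nonempty ha hT _
    have hcard : (A \ P).card + P.card = A.card := Finset.card_sdiff_add_card_eq_card hPA
    have hlt : (A \ P).card < n := by
      have := Finset.card_pos.2 hPne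
      omega
    have hsub : A \ P ⊆ A := Finset.sdiff_subset
    have h1 := ih _ hlt (A \ P)
      (le_trans (by exact_mod_cast touch_mono hsub) hM)
      (fun A' hA' a' ha' => hpiece A' (hA'.trans hsub) a' ha') rfl
    have h2 := hpiece A (Finset.Subset.refl _) a ha (j + 1) (by omega)
    rw [← hP] at h2 hgr
    have h3 : touch T f (A \ P) + touch T f (ball T f A a j) ≤ touch T f A := by
      rw [hP]; exact touch_remove ha j
    have h3' : (touch T f (A \ P) : ℝ) + (touch T f (ball T f A a j) : ℝ) ≤ (touch T f A : ℝ) := by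
      exact_mod_cast h3
    have h4 : (A.card : ℝ) = ((A \ P).card : ℝ) + (P.card : ℝ) := by exact_mod_cast hcard.symm
    rw [← h, h4]
    calc ((A \ P).card : ℝ) + (P.card : ℝ)
        ≤ D * (M ^ (1 / (t : ℝ)) * touch T f (A \ P)) + D * touch T f P := add_le_add h1 h2
      _ ≤ D * (M ^ (1 / (t : ℝ)) * touch T f (A \ P)) +
          D * (M ^ (1 / (t : ℝ)) * touch T f (ball T f A a j)) := by
            have := mul_le_mul_of_nonneg_left hgr hD
            linarith
      _ = D * (M ^ (1 / (t : ℝ)) *
          ((touch T f (A \ P) : ℝ) + (touch T f (ball T f A a j) : ℝ))) := by ring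
      _ ≤ D * (M ^ (1 / (t : ℝ)) * touch T f A) :=
          mul_le_mul_of_nonneg_left (mul_le_mul_of_nonneg_left h3' hq.le) hD

end Pool.Agent.K3h55.OP
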