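import Pool.Agent.K3h55.OP.Loc

set_option autoImplicit false

/-!
# Arithmetic Kakeya for sets with one projection consisting of short sums: auxiliary statements
-/

namespace Pool.Agent.K3h55.OP

open Finset Pool.Agent.TH551.SU Pool.Agent.TH539.MQ

lemma box_inv {n : ℕ} {x : ℚ} (hx : x ∈ box n) (h0 : x ≠ 0) : x⁻¹ ∈ box n := by
  obtain ⟨h1, h2⟩ := box_num hx
  have hnum : x.num ≠ 0 := Rat.num_ne_zero.2 h0
  have h3 : x⁻¹ = ((x.num.sign * x.den : ℤ) : ℚ) / ((x.num.natAbs : ℕ) : ℚ) := by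
    have h4 : ((x.num.natAbs : ℕ) : ℚ) = (x.num.sign : ℚ) * x.num := by
      have h5 : |x.num| = x.num.sign * x.num := (Int.sign_mul_self_eq_abs x.num).symm
      rw [Nat.cast_natAbs, h5]
      push_cast
      rfl
    have h6 : (x.num.sign : ℚ) ≠ 0 := by
      have : x.num.sign ≠ 0 := by rwa [Ne, Int.sign_eq_zero_iff_zero]
      exact_mod_cast this
    have h7 : (x.num : ℚ) ≠ 0 := by exact_mod_cast hnum
    have h8 : (x.den : ℚ) ≠ 0 := by exact_mod_cast x.den_nz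
    rw [h4]
    nth_rewrite 1 [← Rat.num_div_den x]
    push_cast
    field_simp
  rw [h3]
  have hab : ((x.num.natAbs : ℕ) : ℝ) ≤ n := by
    have : ((x.num.natAbs : ℕ) : ℝ) = |(x.num : ℝ)| := by
      rw [Nat.cast_natAbs]; push_cast; rfl
    rw [this]; exact h1
  refine mem_box' _ _ ?_ (Nat.pos_of_ne_zero (by simpa using hnum)) (by exact_mod_cast hab)
  rw [abs_mul]
  have h9 : |x.num.sign| = 1 := by
    rcases lt_or_gt_of_ne hnum with h | h
    · rw [Int.sign_eq_neg_one_of_neg h]; rfl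
    · rw [Int.sign_eq_one_of_pos h]; rfl
  rw [h9, one_mul, Nat.abs_cast]
  exact_mod_cast h2

/-- points on a line: one short projection -/
lemma sh_of_proj {s : ℕ} {b : Fin s → ℕ} {k h t₀ : ℕ} {p q z z' : ℚ × ℚ} {τ : ℚ}
    (hp : p.1 ∈ box t₀ ∧ p.2 ∈ box t₀) (hq : q.1 ∈ box h ∧ q.2 ∈ box h)
    (hdet : q.1 * p.2 - q.2 * p.1 ≠ 0) (hz : lf p z = lf p z')
    {c u c' u' : Fin k → ℚ} (hc : ∀ i, IsSU b (u i) ∧ c i ∈ box h)
    (hc' : ∀ i, IsSU b (u' i) ∧ c' i ∈ box h)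
    (h1 : lf q z - τ = ∑ i, c i * u i) (h2 : lf q z' - τ = ∑ i, c' i * u' i) :
    Sh b (Fin k ⊕ Fin k) (h * (t₀ * (2 * ((h * t₀) * (h * t₀))))) (z - z') := by
  have hd : q.1 * p.2 - q.2 * p.1 ∈ box (2 * ((h * t₀) * (h * t₀))) := by
    have h3 : q.1 * p.2 - q.2 * p.1 = q.1 * p.2 + -(q.2 * p.1) := by ring
    rw [h3]
    exact box_add (box_mul hq.1 hp.2) (box_neg (box_mul hq.2 hp.1))
  obtain ⟨g, hg⟩ : ∃ g, g = 2 * ((h * t₀) * (h * t₀)) := ⟨_, rfl⟩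
  rw [← hg] at hd ⊢
  have hi := box_inv hd hdet
  obtain ⟨δ, hδ⟩ : ∃ δ, δ = (q.1 * p.2 - q.2 * p.1)⁻¹ := ⟨_, rfl⟩
  rw [← hδ] at hi
  have hδ1 : δ * (q.1 * p.2 - q.2 * p.1) = 1 := by rw [hδ]; exact inv_mul_cancel₀ hdet
  refine ⟨Sum.elim u u', Sum.elim (fun i => (c i * (p.2 * δ), -(c i * (p.1 * δ))))
    (fun i => (-(c' i * (p.2 * δ)), c' i * (p.1 * δ))), ?_, ?_⟩
  · rintro (i | i)
    · exact ⟨(hc i).1, box_mul (hc i).2 (box_mul hp.2 hi),
        box_neg (box_mul (hc i).2 (box_mul hp.1 hi))⟩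
    · exact ⟨(hc' i).1, box_neg (box_mul (hc' i).2 (box_mul hp.2 hi)),
        box_mul (hc' i).2 (box_mul hp.1 hi)⟩
  · rw [Fintype.sum_sum_type]
    simp only [Sum.elim_inl, Sum.elim_inr]
    have e1 : ∑ i, u i • ((c i * (p.2 * δ), -(c i * (p.1 * δ))) : ℚ × ℚ) =
        ((lf q z - τ) * (p.2 * δ), -((lf q z - τ) * (p.1 * δ))) := by
      rw [h1]
      refine Prod.ext ?_ ?_
      · rw [Prod.fst_sum]
        simp only [Prod.smul_mk, smul_eq_mul]
        rw [Finset.sum_mul]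
        exact Finset.sum_congr rfl fun i _ => by ring
      · rw [Prod.snd_sum]
        simp only [Prod.smul_mk, smul_eq_mul]
        rw [Finset.sum_mul, ← Finset.sum_neg_distrib]
        exact Finset.sum_congr rfl fun i _ => by ring
    have e2 : ∑ i, u' i • ((-(c' i * (p.2 * δ)), c' i * (p.1 * δ)) : ℚ × ℚ) =
        (-((lf q z' - τ) * (p.2 * δ)), (lf q z' - τ) * (p.1 * δ)) := by
      rw [h2]
      refine Prod.ext ?_ ?_
      · rw [Prod.fst_sum]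
        simp only [Prod.smul_mk, smul_eq_mul]
        rw [Finset.sum_mul, ← Finset.sum_neg_distrib]
        exact Finset.sum_congr rfl fun i _ => by ring
      · rw [Prod.snd_sum]
        simp only [Prod.smul_mk, smul_eq_mul]
        rw [Finset.sum_mul]
        exact Finset.sum_congr rfl fun i _ => by ring
    rw [e1, e2]
    have hz' : p.1 * (z.1 - z'.1) + p.2 * (z.2 - z'.2) = 0 := by
      have := hz
      simp only [lf] at this
      linear_combination this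
    refine Prod.ext ?_ ?_
    · simp only [lf, Prod.fst_sub, Prod.mk_add_mk]
      linear_combination (-(z.1 - z'.1)) * hδ1 - δ * q.2 * hz'
    · simp only [lf, Prod.snd_sub, Prod.mk_add_mk]
      linear_combination (-(z.2 - z'.2)) * hδ1 + δ * q.1 * hz'

/-- the bound of `local_bound` for all subsets of size `m + 1` at once -/
theorem local_bound_all {s : ℕ} (b : Fin s → ℕ) (hb : ∀ v, (b v).Prime)
    (hbi : Function.Injective b) (κ : Type) [Fintype κ] [DecidableEq κ] (T : Finset (ℚ × ℚ))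
    (hT : ∀ p ∈ T, ∀ q ∈ T, p ≠ q → p.1 * q.2 - p.2 * q.1 ≠ 0) (m : ℕ) (hm : 1 ≤ m)
    (t : ℕ) (ht : 1 ≤ t) :
    ∃ C : ℕ, ∀ T' ⊆ T, T'.card = m + 1 → ∀ h : ℕ, 1 ≤ h → ∀ A : Finset (ℚ × ℚ),
      (∀ p ∈ T', ∀ z ∈ A, ∀ z' ∈ A, lf p z = lf p z' → Sh b κ h (z - z')) →
      ∀ B : ℝ, (∀ p ∈ T', ((A.image (lf p)).card : ℝ) ≤ B) →
      (A.card : ℝ) ≤ ((C : ℝ) * (h : ℝ) ^ C * B) ^ (1 / (m : ℝ)) *
        ((m + 1) * B) ^ (1 + 1 / (t : ℝ)) := by
  classical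
  have h0 : ∀ T' : Finset (ℚ × ℚ), ∃ C : ℕ, T' ⊆ T → T'.card = m + 1 → ∀ h : ℕ, 1 ≤ h →
      ∀ A : Finset (ℚ × ℚ),
      (∀ p ∈ T', ∀ z ∈ A, ∀ z' ∈ A, lf p z = lf p z' → Sh b κ h (z - z')) →
      ∀ B : ℝ, (∀ p ∈ T', ((A.image (lf p)).card : ℝ) ≤ B) →
      (A.card : ℝ) ≤ ((C : ℝ) * (h : ℝ) ^ C * B) ^ (1 / (m : ℝ)) *
        ((m + 1) * B) ^ (1 + 1 / (t : ℝ)) := by
    intro T'
    by_cases h1 : T' ⊆ T ∧ T'.card = m + 1
    · obtain ⟨C, hC⟩ := local_bound b hb hbi κ T'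
        (fun p hp q hq => hT p (h1.1 hp) q (h1.1 hq)) m hm h1.2 t ht
      exact ⟨C, fun _ _ => hC⟩
    · exact ⟨0, fun h2 h3 => absurd ⟨h2, h3⟩ h1⟩
  choose F hF using h0
  refine ⟨∑ T' ∈ T.powerset, F T', fun T' hT' hcard h hh A hloc B hB => ?_⟩
  have hle : F T' ≤ ∑ T' ∈ T.powerset, F T' :=
    Finset.single_le_sum (f := F) (fun _ _ => Nat.zero_le _) (Finset.mem_powerset.2 hT')
  have hne : T'.Nonempty := Finset.card_pos.1 (by omega)
  obtain ⟨p, hp⟩ := hne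
  have hB0 : 0 ≤ B := le_trans (Nat.cast_nonneg _) (hB p hp)
  have hh1 : (1 : ℝ) ≤ h := by exact_mod_cast hh
  refine (hF T' hT' hcard h hh A hloc B hB).trans ?_
  refine mul_le_mul_of_nonneg_right ?_ (by positivity)
  refine Real.rpow_le_rpow (by positivity) ?_ (by positivity)
  refine mul_le_mul_of_nonneg_right ?_ hB0
  exact mul_le_mul (by exact_mod_cast hle) (pow_le_pow_right₀ hh1 hle) (by positivity)
    (by positivity)

end Pool.Agent.K3h55.OP
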