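import Pool.Agent.TH539.MQPoly
import Pool.Agent.K3h55.OP.Dec

set_option autoImplicit false

/-!
# Projections of sets for which the points on a common line differ by short sums
-/

namespace Pool.Agent.K3h55.OP

open Finset Pool.Agent.TH551.SU Pool.Agent.TH539.MQ

/-- `z` is a sum of `S`-units times vectors of height at most `h`, the terms being indexed
by `κ` -/
def Sh {s : ℕ} (b : Fin s → ℕ) (κ : Type) [Fintype κ] (h : ℕ) (z : ℚ × ℚ) : Prop :=
  ∃ (lam : κ → ℚ) (w : κ → ℚ × ℚ),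
    (∀ i, IsSU b (lam i) ∧ (w i).1 ∈ box h ∧ (w i).2 ∈ box h) ∧ z = ∑ i, lam i • w i

lemma chain {s : ℕ} (b : Fin s → ℕ) (κ : Type) [Fintype κ] (h : ℕ) (T : Finset (ℚ × ℚ))
    (A : Finset (ℚ × ℚ))
    (hloc : ∀ p ∈ T, ∀ z ∈ A, ∀ z' ∈ A, lf p z = lf p z' → Sh b κ h (z - z'))
    (a : ℚ × ℚ) (ha : a ∈ A) (j : ℕ) :
    ∀ z ∈ ball T lf A a j, Sh b (Fin j × κ) h (z - a) := by
  induction j with
  | zero =>
    intro z hz
    rw [ball, Finset.mem_singleton] at hz
    rw [hz, sub_self]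
    refine ⟨fun i => i.1.elim0, fun i => i.1.elim0, fun i => i.1.elim0, ?_⟩
    rw [Finset.sum_of_isEmpty]
  | succ j ih =>
    intro z hz
    obtain ⟨hzA, y, hy, p, hp, hpy⟩ := mem_ball_succ.1 hz
    obtain ⟨lam, w, h1, h2⟩ := hloc p hp z hzA y (ball_sub ha j hy) hpy
    obtain ⟨lam', w', h3, h4⟩ := ih y hy
    refine ⟨fun i => Fin.cases (lam i.2) (fun q => lam' (q, i.2)) i.1,
      fun i => Fin.cases (w i.2) (fun q => w' (q, i.2)) i.1, ?_, ?_⟩
    · rintro ⟨q, i⟩
      refine Fin.cases ?_ (fun q' => ?_) q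
      · simpa using h1 i
      · simpa using h3 (q', i)
    · rw [Fintype.sum_prod_type, Fin.sum_univ_succ]
      simp only [Fin.cases_zero, Fin.cases_succ]
      rw [Fintype.sum_prod_type] at h4
      rw [← h2, ← h4]
      abel

lemma card_image_sub (P : Finset (ℚ × ℚ)) (a : ℚ × ℚ) : (P.image (fun z => z - a)).card = P.card :=
  Finset.card_image_of_injective _ (sub_left_injective)

lemma card_proj_sub (P : Finset (ℚ × ℚ)) (a p : ℚ × ℚ) :
    ((P.image (fun z => z - a)).image (lf p)).card = (P.image (lf p)).card := by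
  have h1 : (P.image (fun z => z - a)).image (lf p) = (P.image (lf p)).image
      (fun v => v - lf p a) := by
    rw [Finset.image_image, Finset.image_image]
    refine Finset.image_congr fun z _ => ?_
    simp only [Function.comp, lf, Prod.fst_sub, Prod.snd_sub]
    ring
  rw [h1]
  exact Finset.card_image_of_injective _ (sub_left_injective)

/-- **Sets for which the points on a common line differ by short sums.** -/
theorem local_bound {s : ℕ} (b : Fin s → ℕ) (hb : ∀ v, (b v).Prime) (hbi : Function.Injective b)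
    (κ : Type) [Fintype κ] [DecidableEq κ] (T : Finset (ℚ × ℚ))
    (hT : ∀ p ∈ T, ∀ q ∈ T, p ≠ q → p.1 * q.2 - p.2 * q.1 ≠ 0) (m : ℕ) (hm : 1 ≤ m)
    (hTm : T.card = m + 1) (t : ℕ) (ht : 1 ≤ t) :
    ∃ C : ℕ, ∀ h : ℕ, 1 ≤ h → ∀ A : Finset (ℚ × ℚ),
      (∀ p ∈ T, ∀ z ∈ A, ∀ z' ∈ A, lf p z = lf p z' → Sh b κ h (z - z')) →
      ∀ B : ℝ, (∀ p ∈ T, ((A.image (lf p)).card : ℝ) ≤ B) →
      (A.card : ℝ) ≤ ((C : ℝ) * (h : ℝ) ^ C * B) ^ (1 / (m : ℝ)) *
        ((m + 1) * B) ^ (1 + 1 / (t : ℝ)) := by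
  classical
  obtain ⟨C, hC⟩ := poly b hb hbi (Fin t × κ) T hT
  refine ⟨C, fun h hh A hloc B hB => ?_⟩
  have hTne : T.Nonempty := Finset.card_pos.1 (by omega)
  rcases A.eq_empty_or_nonempty with rfl | hne
  · obtain ⟨p, hp⟩ := hTne
    have h0 := hB p hp
    rw [Finset.image_empty, Finset.card_empty, Nat.cast_zero] at h0
    rw [Finset.card_empty, Nat.cast_zero]
    positivity
  have hB1 : 1 ≤ B := by
    obtain ⟨p, hp⟩ := hTne
    have h0 : (1 : ℝ) ≤ ((A.image (lf p)).card : ℝ) := by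
      exact_mod_cast Finset.card_pos.2 (hne.image _)
    exact h0.trans (hB p hp)
  have hB0 : (0 : ℝ) < B := by linarith
  have hm0 : (0 : ℝ) < m := by exact_mod_cast hm
  obtain ⟨X, hX⟩ : ∃ X : ℝ, X = (C : ℝ) * (h : ℝ) ^ C * B := ⟨_, rfl⟩
  have hX0 : 0 ≤ X := by rw [hX]; positivity
  obtain ⟨D, hD⟩ : ∃ D : ℝ, D = X ^ (1 / (m : ℝ)) := ⟨_, rfl⟩
  have hD0 : 0 ≤ D := hD ▸ Real.rpow_nonneg hX0 _
  have hDm : D ^ m = X := by
    rw [hD, ← Real.rpow_natCast, ← Real.rpow_mul hX0, one_div, inv_mul_cancel₀ hm0.ne',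
      Real.rpow_one]
  have htouch : (touch T lf A : ℝ) ≤ (m + 1) * B := by
    unfold touch
    push_cast
    calc ∑ p ∈ T, ((A.image (lf p)).card : ℝ) ≤ ∑ _p ∈ T, B := Finset.sum_le_sum hB
      _ = (m + 1) * B := by rw [Finset.sum_const, nsmul_eq_mul, hTm]; push_cast; ring
  have hmain := decomp (T := T) (f := lf) hTne t ht ((m + 1) * B) D hD0 A htouch (by
    intro A' hA' a ha j hj
    obtain ⟨P, hP⟩ : ∃ P, P = ball T lf A' a j := ⟨_, rfl⟩
    rw [← hP]
    have hPne : P.Nonempty := hP ▸ ball_nonempty ha hTne j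
    have hPA : P ⊆ A := hP ▸ (ball_sub ha j).trans hA'
    have h1 := hC h hh (P.image (fun z => z - a)) (hPne.image _) (by
      intro z hz
      obtain ⟨y, hy, rfl⟩ := Finset.mem_image.1 hz
      rw [hP] at hy
      obtain ⟨lam, w, h2, h3⟩ := chain b κ h T A'
        (fun p hp z hz z' hz' => hloc p hp z (hA' hz) z' (hA' hz')) a ha t y
        (ball_le ha hTne hj hy)
      exact ⟨lam, w, h2, h3⟩)
    rw [card_image_sub] at h1
    simp only [card_proj_sub] at h1
    rw [hTm, Nat.add_sub_cancel] at h1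
    obtain ⟨p₀, hp₀⟩ := hTne
    have h2 : ∏ p ∈ T, ((P.image (lf p)).card : ℝ) ≤ B * (touch T lf P : ℝ) ^ m := by
      rw [← Finset.mul_prod_erase T _ hp₀]
      refine mul_le_mul ?_ ?_ (Finset.prod_nonneg fun _ _ => Nat.cast_nonneg _) hB0.le
      · refine le_trans ?_ (hB p₀ hp₀)
        exact_mod_cast Finset.card_le_card (Finset.image_subset_image hPA)
      · have h3 : (T.erase p₀).card = m := by
          rw [Finset.card_erase_of_mem hp₀, hTm]; rfl
        calc ∏ p ∈ T.erase p₀, ((P.image (lf p)).card : ℝ)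
            ≤ ∏ _p ∈ T.erase p₀, (touch T lf P : ℝ) := by
              refine Finset.prod_le_prod (fun _ _ => Nat.cast_nonneg _) fun p hp => ?_
              have h4 : (P.image (lf p)).card ≤ touch T lf P :=
                Finset.single_le_sum (f := fun p => (P.image (lf p)).card)
                  (fun _ _ => Nat.zero_le _) (Finset.mem_of_mem_erase hp)
              exact_mod_cast h4
          _ = (touch T lf P : ℝ) ^ m := by rw [Finset.prod_const, h3]
    have h5 : (P.card : ℝ) ^ m ≤ ((C : ℝ) * (h : ℝ) ^ C) * ∏ p ∈ T, ((P.image (lf p)).card : ℝ) := by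
      exact_mod_cast h1
    have h6 : (P.card : ℝ) ^ m ≤ (D * touch T lf P) ^ m := by
      rw [mul_pow, hDm, hX]
      calc (P.card : ℝ) ^ m ≤ ((C : ℝ) * (h : ℝ) ^ C) * ∏ p ∈ T, ((P.image (lf p)).card : ℝ) := h5
        _ ≤ ((C : ℝ) * (h : ℝ) ^ C) * (B * (touch T lf P : ℝ) ^ m) :=
            mul_le_mul_of_nonneg_left h2 (by positivity)
        _ = (C : ℝ) * (h : ℝ) ^ C * B * (touch T lf P : ℝ) ^ m := by ring
    exact le_of_pow_le_pow_left₀ (by omega) (by positivity) h6)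
  have hM0 : (0 : ℝ) < (m + 1) * B := by positivity
  calc (A.card : ℝ) ≤ D * (((m + 1) * B) ^ (1 / (t : ℝ)) * touch T lf A) := hmain
    _ ≤ D * (((m + 1) * B) ^ (1 / (t : ℝ)) * ((m + 1) * B)) := by
        refine mul_le_mul_of_nonneg_left (mul_le_mul_of_nonneg_left htouch ?_) hD0
        exact Real.rpow_nonneg hM0.le _
    _ = X ^ (1 / (m : ℝ)) * ((m + 1) * B) ^ (1 + 1 / (t : ℝ)) := by
        rw [hD, add_comm (1 : ℝ), Real.rpow_add hM0, Real.rpow_one]
    _ = _ := by rw [hX]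

end Pool.Agent.K3h55.OP
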